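import Pool.Agent.H64.IPT.Sol

/-!
# Colourings of triples and Hindman's theorem for sums of at most four terms

MP_e6cd9b_lc. Every 2-colouring `x` of triples computes a colouring `y` of the positive integers
with sixteen colours such that every infinite set all of whose sums of at most four distinct
elements have the same `y`-colour computes, without access to `x`, three infinite sets
`H₀, H₁, H₂` on whose increasing triples the colour `x(a, b, c)` does not depend on `b`, and in the
limit depends on at most one of `a` and `c`.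
-/

set_option autoImplicit false

namespace Pool.Agent.Results.MP_e6cd9b_lc.OneVariable

open Pool.Agent.H645R2.HT Pool.Agent.H64.IPT

/-- For every 2-colouring `x` of triples (`x (pair a (pair b c))` is the colour of `a < b < c`)
there is a colouring `y` of the positive integers with sixteen colours, computable in `x`, such that
every infinite set `h` of positive integers, all of whose sums of at most four distinct elements get
the same colour, computes (without access to `x`) three infinite sets `H₀`, `H₁`, `H₂`, coded by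
`g`, such that, for `a ∈ H₀`, `b ∈ H₁`, `c ∈ H₂` with `a < b < c`, the colour `x(a, b, c)` does not
depend on `b`, and one of the following holds: for every `a` there is a colour `v` with
`x(a, b, c) = v` for all sufficiently large `c` (and all `b`); or for all `a` and `a'` and all
sufficiently large `c` (and all `b`, `b'`), `x(a, b, c) = x(a', b', c)`. -/
theorem result :
    ∀ x : ℕ → ℕ, (∀ m, x m < 2) →
      ∃ y : ℕ → ℕ, (∀ m, y m < 16) ∧
        TuringReducible (PFun.lift y) (PFun.lift x) ∧
        ∀ h : ℕ → ℕ, (∀ m, h m ≤ 1) →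
          Set.Infinite {m : ℕ | h m = 1} →
          (∀ m, h m = 1 → 0 < m) →
          (∀ F G : Finset ℕ, F.Nonempty → G.Nonempty → F.card ≤ 4 → G.card ≤ 4 →
            (∀ a ∈ F, h a = 1) → (∀ a ∈ G, h a = 1) →
            y (∑ a ∈ F, a) = y (∑ a ∈ G, a)) →
          ∃ g : ℕ → ℕ, (∀ m, g m ≤ 1) ∧
            TuringReducible (PFun.lift g) (PFun.lift h) ∧
            (∀ i : ℕ, i < 3 → Set.Infinite {m : ℕ | g (Nat.pair i m) = 1}) ∧
            (∀ a b b' c : ℕ, a < b → b < c → a < b' → b' < c →
              g (Nat.pair 0 a) = 1 → g (Nat.pair 1 b) = 1 → g (Nat.pair 1 b') = 1 →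
              g (Nat.pair 2 c) = 1 →
              x (Nat.pair a (Nat.pair b c)) = x (Nat.pair a (Nat.pair b' c))) ∧
            ((∀ a : ℕ, g (Nat.pair 0 a) = 1 →
                ∃ v N : ℕ, ∀ b c : ℕ, a < b → b < c → N ≤ c →
                  g (Nat.pair 1 b) = 1 → g (Nat.pair 2 c) = 1 →
                  x (Nat.pair a (Nat.pair b c)) = v) ∨
              (∀ a a' : ℕ, g (Nat.pair 0 a) = 1 → g (Nat.pair 0 a') = 1 →
                ∃ N : ℕ, ∀ b b' c : ℕ, a < b → b < c → a' < b' → b' < c → N ≤ c →
                  g (Nat.pair 1 b) = 1 → g (Nat.pair 1 b') = 1 → g (Nat.pair 2 c) = 1 →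
                  x (Nat.pair a (Nat.pair b c)) = x (Nat.pair a' (Nat.pair b' c)))) := by
  intro x hx
  refine ⟨fun n => col4 (Pool.Agent.Y599.IPT.FX x) n, fun n => col4_lt _ n, col4_red x, ?_⟩
  intro h hh hinf hpos hc
  have hp : Ps {m : ℕ | h m = 1} := hpos
  obtain ⟨x0, hx0⟩ := hinf.nonempty
  have hall : ∀ F : Finset ℕ, (∀ a ∈ F, h a = 1) → F.Nonempty → F.card ≤ 4 →
      col4 (Pool.Agent.Y599.IPT.FX x) (∑ a ∈ F, a) = col4 (Pool.Agent.Y599.IPT.FX x) x0 := by
    intro F hF hne hcard
    have := hc F {x0} hne (by simp) hcard (by simp) hF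
      (fun a ha => by rw [Finset.mem_singleton.1 ha]; exact hx0)
    simpa using this
  have hu0 : Const3 b0 {m : ℕ | h m = 1} := by
    refine ⟨b0 x0, fun F hF hne hcard => ?_⟩
    have h1 := hall F (fun a ha => hF ha) hne (by omega)
    have h2 := congrArg (fun n => decide (n % 2 = 1)) h1
    unfold col4 at h2
    simpa only [dec0] using h2
  have hom : ∀ γ : ℕ → Bool, (∀ F : Finset ℕ, (∀ a ∈ F, h a = 1) → F.Nonempty → F.card ≤ 4 →
      γ (∑ a ∈ F, a) = γ x0) → Hom γ {m : ℕ | h m = 1} (γ x0) := by
    intro γ hγ
    refine ⟨fun a ha => ?_, fun a ha b hb hab => ?_, fun a ha b hb c hc' hab hbc => ?_,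
      fun a ha b hb c hc' d hd hab hbc hcd => ?_⟩
    · have := hγ {a} (by simpa using ha) (by simp) (by simp)
      simpa using this
    · have n1 := sep_ne (hp a ha) hab
      have := hγ {a, b} (by simpa using ⟨ha, hb⟩) (by simp) ((Finset.card_le_two).trans (by omega))
      rw [Finset.sum_pair n1] at this
      exact this
    · have n1 := sep_ne (hp a ha) hab
      have n2 := sep_ne (hp b hb) hbc
      have n3 := sep_ne (hp a ha) (sep_trans (hp b hb) hab hbc)
      have := hγ {a, b, c} (by simpa using ⟨ha, hb, hc'⟩) (by simp)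
        ((Finset.card_le_three).trans (by omega))
      rw [Finset.sum_insert (by simp [n1, n3]), Finset.sum_pair n2] at this
      exact this
    · have sbd := sep_trans (hp c hc') hbc hcd
      have n1 := sep_ne (hp a ha) hab
      have n2 := sep_ne (hp b hb) hbc
      have n3 := sep_ne (hp a ha) (sep_trans (hp b hb) hab hbc)
      have n4 := sep_ne (hp c hc') hcd
      have n5 := sep_ne (hp b hb) sbd
      have n6 := sep_ne (hp a ha) (sep_trans (hp b hb) hab sbd)
      have := hγ {a, b, c, d} (by simpa using ⟨ha, hb, hc', hd⟩) (by simp) Finset.card_le_four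
      rw [Finset.sum_insert (by simp [n1, n3, n6]), Finset.sum_insert (by simp [n2, n5]),
        Finset.sum_pair n4] at this
      exact this
  have h2 := hom (C (c2 (Pool.Agent.Y599.IPT.FX x))) fun F hF hne hcard => by
    have h2 := congrArg (fun n => decide (n / 2 % 2 = 1)) (hall F hF hne hcard)
    unfold col4 at h2
    simpa only [dec1] using h2
  have h3 := hom (C (c3 (Pool.Agent.Y599.IPT.FX x))) fun F hF hne hcard => by
    have h2 := congrArg (fun n => decide (n / 4 % 2 = 1)) (hall F hF hne hcard)
    unfold col4 at h2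
    simpa only [dec2] using h2
  have h4 := hom (C (c4 (Pool.Agent.Y599.IPT.FX x))) fun F hF hne hcard => by
    have h2 := congrArg (fun n => decide (n / 8 % 2 = 1)) (hall F hF hne hcard)
    unfold col4 at h2
    simpa only [dec3] using h2
  have hf := hu0.far hinf hp
  obtain ⟨g, g1, g2, g3, g4, g5⟩ := main hx hh hp hf h2 h3 h4
  exact ⟨g, g1, g2, g3, g4, g5⟩

end Pool.Agent.Results.MP_e6cd9b_lc.OneVariable
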